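import Mathlib

namespace Pool.Agent.H.MP_16b0c2_al

universe u

theorem free_center {α : Type u} {a b : α} (hab : a ≠ b) {z : FreeGroup α}
    (hz : ∀ c, Commute (FreeGroup.of c) z) : z = 1 := by
  classical
  by_contra h
  obtain ⟨s, W, hW⟩ := List.exists_cons_of_ne_nil (mt FreeGroup.toWord_eq_nil_iff.1 h)
  obtain ⟨c, hc⟩ : ∃ c, c ≠ s.1 := by
    by_cases h : a = s.1
    · exact ⟨b, fun h' => hab (h.trans h'.symm)⟩
    · exact ⟨a, h⟩
  have h1 : (FreeGroup.of c * z).toWord = (c, true) :: z.toWord := by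
    rw [FreeGroup.toWord_mul, FreeGroup.toWord_of, List.singleton_append, FreeGroup.reduce.cons,
      FreeGroup.reduce_toWord, hW]
    simp [hc]
  have h2 := FreeGroup.toWord_mul_sublist z (FreeGroup.of c)
  rw [← (hz c).eq, h1, FreeGroup.toWord_of] at h2
  have h3 := h2.eq_of_length (by simp)
  rw [hW] at h3
  simp only [List.cons_append, List.cons.injEq] at h3
  exact hc (congrArg Prod.fst h3.1)

theorem free_cyc {α : Type u} [Subsingleton α] : IsCyclic (FreeGroup α) := by
  rcases isEmpty_or_nonempty α with h | ⟨⟨a⟩⟩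
  · infer_instance
  · have := uniqueOfSubsingleton a
    infer_instance

theorem free_ct {α : Type u} {g u v : FreeGroup α} (hg : g ≠ 1) (hu : Commute g u)
    (hv : Commute g v) : Commute u v := by
  let H := Subgroup.centralizer ({g} : Set (FreeGroup α))
  have mem : ∀ x, Commute g x → x ∈ H := fun x hx => by
    rw [Subgroup.mem_centralizer_singleton_iff]
    exact hx.symm.eq
  let e := IsFreeGroup.toFreeGroup H
  by_cases h : Subsingleton (IsFreeGroup.Generators H)
  · have := free_cyc (α := IsFreeGroup.Generators H)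
    have h2 : Commute (e ⟨u, mem u hu⟩) (e ⟨v, mem v hv⟩) :=
      (IsCyclic.isMulCommutative (α := FreeGroup (IsFreeGroup.Generators H))).is_comm.comm _ _
    have := h2.map e.symm
    simp only [MulEquiv.symm_apply_apply] at this
    exact congrArg Subtype.val this.eq
  · rw [not_subsingleton_iff_nontrivial] at h
    obtain ⟨a, b, hab⟩ := exists_pair_ne (IsFreeGroup.Generators H)
    have : e ⟨g, mem g (Commute.refl g)⟩ = 1 := free_center hab fun c => by
      have h1 : Commute (e.symm (FreeGroup.of c)) ⟨g, mem g (Commute.refl g)⟩ :=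
        Subtype.ext (Subgroup.mem_centralizer_singleton_iff.1 (e.symm (FreeGroup.of c)).2)
      simpa using h1.map e
    exact absurd (congrArg Subtype.val (e.map_eq_one_iff.1 this)) hg

theorem cyc_normal {α : Type u} [Nontrivial α] (R : Subgroup (FreeGroup α)) [hR : R.Normal]
    [IsCyclic R] : R = ⊥ := by
  classical
  obtain ⟨⟨z, hz⟩, hgen⟩ := IsCyclic.exists_generator (α := R)
  have pw : ∀ r ∈ R, ∃ m : ℤ, z ^ m = r := fun r hr => by
    obtain ⟨m, hm⟩ := hgen ⟨r, hr⟩
    exact ⟨m, congrArg Subtype.val hm⟩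
  by_cases h1 : z = 1
  · rw [eq_bot_iff]
    intro r hr
    obtain ⟨m, rfl⟩ := pw r hr
    simp [h1]
  exfalso
  have sq : ∀ g : FreeGroup α, Commute z (g * g) := by
    intro g
    obtain ⟨m, hm⟩ := pw _ (hR.conj_mem z hz g)
    obtain ⟨n, hn⟩ := pw _ (hR.conj_mem z hz g⁻¹)
    have h2 : z ^ (m * n) = z ^ (1 : ℤ) := by
      rw [zpow_mul, hm, conj_zpow, hn]; group
    have h3 : m * n = 1 :=
      (injective_zpow_iff_not_isOfFinOrder.2 (not_isOfFinOrder_of_isMulTorsionFree h1)) h2
    have h4 : g * g * z * (g * g)⁻¹ = z ^ (m * m) := by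
      rw [zpow_mul, hm, conj_zpow, hm]; group
    have h5 : m * m = 1 := by
      rcases Int.eq_one_or_neg_one_of_mul_eq_one h3 with h | h <;> simp [h]
    rw [h5, zpow_one, mul_inv_eq_iff_eq_mul] at h4
    exact h4.symm
  obtain ⟨a, b, hab⟩ := exists_pair_ne α
  have ha : (FreeGroup.of a * FreeGroup.of a : FreeGroup α) ≠ 1 := fun h => by
    have := congrArg FreeGroup.norm h
    rw [← pow_two, FreeGroup.norm_of_pow] at this
    simp at this
  have hc := fun c => free_ct h1 (sq (FreeGroup.of a)) (sq (FreeGroup.of c))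
  apply ha
  refine free_center hab fun c => ?_
  have hc2 : (FreeGroup.of c * FreeGroup.of c : FreeGroup α) ≠ 1 := fun h => by
    have := congrArg FreeGroup.norm h
    rw [← pow_two, FreeGroup.norm_of_pow] at this
    simp at this
  exact free_ct hc2 ((Commute.refl _).mul_left (Commute.refl _)) (hc c).symm

theorem exists_char {B : Type u} [CommGroup B] (b : B) (hb : b ≠ 1) :
    ∃ χ : B →* ℂ, χ b ≠ 1 := by
  obtain ⟨c, hc⟩ := CharacterModule.exists_character_apply_ne_zero_of_ne_zero
    (A := Additive B) (a := Additive.ofMul b) hb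
  let e : AddCircle (1 : ℚ) →+ AddCircle (1 : ℝ) :=
    QuotientAddGroup.map _ _ (Rat.castHom ℝ).toAddMonoidHom (by
      rintro _ ⟨n, rfl⟩
      exact ⟨n, by simp⟩)
  have he : ∀ x, e x = 0 → x = 0 := by
    intro x hx
    induction x using QuotientAddGroup.induction_on with
    | H q =>
      obtain ⟨n, hn⟩ := (QuotientAddGroup.eq_zero_iff (N := AddSubgroup.zmultiples (1 : ℝ))
        (q : ℝ)).1 hx
      refine (QuotientAddGroup.eq_zero_iff q).2 ⟨n, ?_⟩
      simp only [zsmul_eq_mul, mul_one] at hn ⊢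
      exact_mod_cast hn
  refine ⟨⟨⟨fun x => ((e (c (Additive.ofMul x))).toCircle : ℂ), by simp⟩, fun x y => by
    simp [AddCircle.toCircle_add]⟩, fun h => hc (he _ ?_)⟩
  apply AddCircle.injective_toCircle one_ne_zero
  rw [AddCircle.toCircle_zero]
  exact Subtype.ext h

theorem exists_cocycle {ι G M : Type*} [Group G] [AddCommGroup M] [Module ℂ M]
    (b : FreeGroupBasis ι G) (ρ : G →* Module.End ℂ M) (v : ι → M) :
    ∃ c : G → M, (∀ g h, c (g * h) = c g + ρ g (c h)) ∧ ∀ i, c (b i) = v i := by
  let φ : G →* MulAut (Multiplicative M) :=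
    { toFun := fun g =>
        { toFun := fun m => Multiplicative.ofAdd (ρ g m.toAdd)
          invFun := fun m => Multiplicative.ofAdd (ρ g⁻¹ m.toAdd)
          left_inv := fun m => by simp [← Module.End.mul_apply, ← map_mul]
          right_inv := fun m => by simp [← Module.End.mul_apply, ← map_mul]
          map_mul' := fun m n => by simp }
      map_one' := by ext m; simp
      map_mul' := fun g h => by ext m; simp }
  let f : G →* Multiplicative M ⋊[φ] G := b.lift fun i => ⟨Multiplicative.ofAdd (v i), b i⟩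
  have hf : ∀ i, f (b i) = ⟨Multiplicative.ofAdd (v i), b i⟩ := fun i =>
    congrFun (b.lift.symm_apply_apply _) i
  have hr : SemidirectProduct.rightHom.comp f = MonoidHom.id G :=
    b.ext_hom _ _ fun i => by simp [hf]
  have hr' : ∀ g, (f g).right = g := fun g => DFunLike.congr_fun hr g
  refine ⟨fun g => (f g).left.toAdd, fun g h => ?_, fun i => by simp [hf]⟩
  simp only [map_mul, SemidirectProduct.mul_left, toAdd_mul, hr']
  rfl

end Pool.Agent.H.MP_16b0c2_al
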